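import Mathlib

set_option autoImplicit false

/-!
# The entropy of every one-dimensional matrix shift is the entropy of a tree-shift of finite type

Construction. The labels are a dead symbol and the pairs (vertex of the graph of `A`, free bit). Every
node has one child for each vertex and one more child. The child of a live node with vertex `i` in
direction `j` is live with vertex `j` if `A i j = 1`; all other children are dead. These are conditions
on blocks of height two. The live nodes below a root with vertex `i` are the walks starting at `i`, and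
each of them carries a free bit, so `ln |B_n|` is `ln 2` times the number of walks of length less than
`n` up to bounded factors.
-/

namespace Pool.Agent.Results.MP_29bdbb_an.RealizeMatrixShiftEntropy

open Filter Topology

/-! ### Definitions -/

/-- `Node d n` is `Δ_n`: the words over `Fin d` of length at most `n - 1`. -/
abbrev Node (d n : ℕ) : Type := {w : List (Fin d) // w.length < n}

/-- An `n`-block: a labelling of `Δ_n`. -/
abbrev Block (d : ℕ) (𝒜 : Type) (n : ℕ) : Type := Node d n → 𝒜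

/-- The `n`-block of the labelled tree `t` at the node `v`: `w ↦ t (v w)`. -/
def blockAt {d : ℕ} {𝒜 : Type} (t : List (Fin d) → 𝒜) (v : List (Fin d)) (n : ℕ) :
    Block d 𝒜 n := fun w => t (v ++ w.1)

/-- The tree-shift `X_F`: the labelled trees in which no block of `F` occurs at any node. -/
def TreeShift {d : ℕ} {𝒜 : Type} (F : Set (Σ n : ℕ, Block d 𝒜 n)) : Set (List (Fin d) → 𝒜) :=
  {t | ∀ (v : List (Fin d)) (n : ℕ), (⟨n, blockAt t v n⟩ : Σ n : ℕ, Block d 𝒜 n) ∉ F}

/-- `X` is a tree-shift of finite type: `X = X_F` for a finite set `F` of `n`-blocks with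
`n ≥ 1`. -/
def IsTSFT {d : ℕ} {𝒜 : Type} (X : Set (List (Fin d) → 𝒜)) : Prop :=
  ∃ F : Set (Σ n : ℕ, Block d 𝒜 n), F.Finite ∧ (∀ b ∈ F, 1 ≤ b.1) ∧ X = TreeShift F

/-- `B_n(X)`: the set of `n`-blocks occurring in elements of `X`. -/
def blocks {d : ℕ} {𝒜 : Type} (X : Set (List (Fin d) → 𝒜)) (n : ℕ) : Set (Block d 𝒜 n) :=
  {b | ∃ t ∈ X, ∃ v : List (Fin d), blockAt t v n = b}

/-- `h` is the entropy of `X`: `|B_n(X)| ≥ 2` for all `n ≥ 1` (so that `ln ln |B_n(X)|` is
defined), and `ln ln |B_n(X)| / n → h`. -/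
def HasTreeEntropy {d : ℕ} {𝒜 : Type} (X : Set (List (Fin d) → 𝒜)) (h : ℝ) : Prop :=
  (∀ n : ℕ, 1 ≤ n → 2 ≤ (blocks X n).ncard) ∧
    Tendsto (fun n : ℕ => Real.log (Real.log ((blocks X n).ncard : ℝ)) / n) atTop (𝓝 h)

/-- The one-dimensional matrix shift `X_A`. -/
def matrixShift {𝒜 : Type} (A : Matrix 𝒜 𝒜 ℕ) : Set (ℤ → 𝒜) :=
  {x | ∀ i : ℤ, A (x i) (x (i + 1)) = 1}

/-! ### Typed trees -/

section Types

variable {𝒜 : Type} [Fintype 𝒜] [DecidableEq 𝒜] {d : ℕ} (A : Matrix 𝒜 𝒜 ℕ)
  (e : Fin d ≃ Option 𝒜)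

/-- the type of the child `c` of a node of type `s`; `none` is the dead type -/
def step (s : Option 𝒜) (c : Fin d) : Option 𝒜 :=
  match s with
  | none => none
  | some i => match e c with
    | none => none
    | some j => if A i j = 1 then some j else none

/-- the type of the node `w` when the root has type `s` -/
def typeAt (s : Option 𝒜) (w : List (Fin d)) : Option 𝒜 := w.foldl (step A e) s

lemma typeAt_cons (s : Option 𝒜) (c : Fin d) (w : List (Fin d)) :
    typeAt A e s (c :: w) = typeAt A e (step A e s c) w := rfl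

lemma typeAt_append (s : Option 𝒜) (v : List (Fin d)) (c : Fin d) :
    typeAt A e s (v ++ [c]) = step A e (typeAt A e s v) c := by
  simp [typeAt]

lemma typeAt_none (w : List (Fin d)) : typeAt A e none w = none := by
  induction w with
  | nil => rfl
  | cons c w ih => rw [typeAt_cons]; exact ih

/-- the type of a label -/
def ty (x : Option (𝒜 × Bool)) : Option 𝒜 := x.map Prod.fst

/-- forbidden blocks -/
def Forb : Set (Σ n : ℕ, Block d (Option (𝒜 × Bool)) n) :=
  {b | ∃ (b' : Block d (Option (𝒜 × Bool)) 2), b = ⟨2, b'⟩ ∧ ∃ c : Fin d,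
    ty (b' ⟨[c], by simp⟩) ≠ step A e (ty (b' ⟨[], by simp⟩)) c}

lemma mem_shift (t : List (Fin d) → Option (𝒜 × Bool)) :
    t ∈ TreeShift (Forb A e) ↔ ∀ (v : List (Fin d)) (c : Fin d),
      ty (t (v ++ [c])) = step A e (ty (t v)) c := by
  constructor
  · intro h v c
    by_contra hne
    apply h v 2
    refine ⟨blockAt t v 2, rfl, c, ?_⟩
    simpa [blockAt] using hne
  · rintro h v n ⟨b', hb, c, hc⟩
    obtain rfl : n = 2 := by
      have := congrArg Sigma.fst hb
      exact this
    have hb' : blockAt t v 2 = b' := by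
      simpa using hb
    subst hb'
    apply hc
    have := h v c
    simpa [blockAt] using this

instance nodeFinite (d n : ℕ) : Finite (Node d n) := by
  have : {w : List (Fin d) | w.length < n}.Finite := List.finite_length_lt (Fin d) n
  exact this.to_subtype

lemma forb_finite : (Forb A e).Finite := by
  have : (Forb A e) ⊆ Set.range (fun b' : Block d (Option (𝒜 × Bool)) 2 =>
      (⟨2, b'⟩ : Σ n : ℕ, Block d (Option (𝒜 × Bool)) n)) := by
    rintro b ⟨b', rfl, _⟩
    exact ⟨b', rfl⟩
  exact (Set.finite_range _).subset this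

lemma type_of_mem {t : List (Fin d) → Option (𝒜 × Bool)} (ht : t ∈ TreeShift (Forb A e))
    (w : List (Fin d)) : ∀ v, ty (t (v ++ w)) = typeAt A e (ty (t v)) w := by
  rw [mem_shift] at ht
  induction w with
  | nil => intro v; simp [typeAt]
  | cons c w ih =>
    intro v
    have h1 : v ++ c :: w = (v ++ [c]) ++ w := by simp
    rw [h1, ih, ht, typeAt_cons]

/-- live nodes of length `< n` -/
abbrev Live (s : Option 𝒜) (n : ℕ) : Type :=
  {w : List (Fin d) // w.length < n ∧ (typeAt A e s w).isSome}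

/-- live nodes of length `= k` -/
abbrev LiveEq (s : Option 𝒜) (k : ℕ) : Type :=
  {w : List (Fin d) // w.length = k ∧ (typeAt A e s w).isSome}

instance liveFinite (s : Option 𝒜) (n : ℕ) : Finite (Live A e s n) := by
  have : {w : List (Fin d) | w.length < n ∧ (typeAt A e s w).isSome}.Finite :=
    (List.finite_length_lt (Fin d) n).subset fun w hw => hw.1
  exact this.to_subtype

instance liveEqFinite (s : Option 𝒜) (n : ℕ) : Finite (LiveEq A e s n) := by
  have : {w : List (Fin d) | w.length = n ∧ (typeAt A e s w).isSome}.Finite :=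
    (List.finite_length_eq (Fin d) n).subset fun w hw => hw.1
  exact this.to_subtype

lemma card_liveEq_none (k : ℕ) : Nat.card (LiveEq A e none k) = 0 := by
  have : IsEmpty (LiveEq A e none k) := ⟨fun w => by
    have := w.2.2
    rw [typeAt_none] at this
    simp at this⟩
  exact Nat.card_of_isEmpty

lemma card_liveEq_zero (i : 𝒜) : Nat.card (LiveEq A e (some i) 0) = 1 := by
  rw [Nat.card_eq_one_iff_unique]
  refine ⟨⟨fun a b => Subtype.ext ?_⟩, ⟨⟨[], rfl, by simp [typeAt]⟩⟩⟩
  have ha := a.2.1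
  have hb := b.2.1
  rw [List.length_eq_zero_iff] at ha hb
  rw [ha, hb]

/-- splitting off the first letter -/
def liveEqEquiv (s : Option 𝒜) (k : ℕ) :
    LiveEq A e s (k + 1) ≃ Σ c : Fin d, LiveEq A e (step A e s c) k where
  toFun w := match w with
    | ⟨[], h⟩ => absurd h.1 (by simp)
    | ⟨c :: w, h⟩ => ⟨c, ⟨w, by simpa using h.1, h.2⟩⟩
  invFun p := ⟨p.1 :: p.2.1, by simp [p.2.2.1], p.2.2.2⟩
  left_inv w := by
    rcases w with ⟨w, h⟩
    cases w with
    | nil => exact absurd h.1 (by simp)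
    | cons c w => rfl
  right_inv p := rfl

lemma card_liveEq (hA : ∀ i j, A i j = 0 ∨ A i j = 1) (k : ℕ) :
    ∀ i, Nat.card (LiveEq A e (some i) k) = ∑ j, (A ^ k) i j := by
  induction k with
  | zero =>
    intro i
    rw [card_liveEq_zero]
    simp [Matrix.one_apply]
  | succ k ih =>
    intro i
    rw [Nat.card_congr (liveEqEquiv A e (some i) k), Nat.card_sigma]
    have h1 : ∑ c : Fin d, Nat.card (LiveEq A e (step A e (some i) c) k)
        = ∑ o : Option 𝒜, Nat.card (LiveEq A e (match o with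
          | none => none
          | some j => if A i j = 1 then some j else none) k) := by
      refine Fintype.sum_equiv e _ _ fun c => ?_
      rfl
    rw [h1, Fintype.sum_option]
    simp only
    rw [card_liveEq_none, zero_add]
    have h2 : ∀ j, Nat.card (LiveEq A e (if A i j = 1 then some j else none) k)
        = A i j * ∑ l, (A ^ k) j l := by
      intro j
      rcases hA i j with h | h
      · rw [h, if_neg (by norm_num), card_liveEq_none, zero_mul]
      · rw [h, if_pos rfl, one_mul, ih]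
    simp_rw [h2, Finset.mul_sum]
    rw [Finset.sum_comm]
    refine Finset.sum_congr rfl fun l _ => ?_
    rw [pow_succ', Matrix.mul_apply]

/-- splitting by length -/
def liveEquiv (s : Option 𝒜) (n : ℕ) :
    Live A e s n ≃ Σ k : Fin n, LiveEq A e s k where
  toFun w := ⟨⟨w.1.length, w.2.1⟩, ⟨w.1, rfl, w.2.2⟩⟩
  invFun p := ⟨p.2.1, by rw [p.2.2.1]; exact p.1.2, p.2.2.2⟩
  left_inv w := rfl
  right_inv p := by
    rcases p with ⟨⟨k, hk⟩, ⟨w, h1, h2⟩⟩
    simp only at h1
    subst h1
    rfl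

lemma card_live (s : Option 𝒜) (n : ℕ) :
    Nat.card (Live A e s n) = ∑ k ∈ Finset.range n, Nat.card (LiveEq A e s k) := by
  rw [Nat.card_congr (liveEquiv A e s n), Nat.card_sigma,
    Finset.sum_range (fun k => Nat.card (LiveEq A e s k))]

open Classical in
/-- the tree with root type `s` and bits `f` -/
noncomputable def treeOf (s : Option 𝒜) (n : ℕ) (f : Live A e s n → Bool) (w : List (Fin d)) :
    Option (𝒜 × Bool) :=
  (typeAt A e s w).map fun j =>
    (j, if h : w.length < n ∧ (typeAt A e s w).isSome then f ⟨w, h⟩ else false)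

lemma ty_treeOf (s : Option 𝒜) (n : ℕ) (f : Live A e s n → Bool) (w : List (Fin d)) :
    ty (treeOf A e s n f w) = typeAt A e s w := by
  unfold ty treeOf
  rw [Option.map_map]
  exact congrFun (Option.map_id (α := 𝒜)) _

lemma treeOf_mem (s : Option 𝒜) (n : ℕ) (f : Live A e s n → Bool) :
    treeOf A e s n f ∈ TreeShift (Forb A e) := by
  rw [mem_shift]
  intro v c
  rw [ty_treeOf, ty_treeOf, typeAt_append]

lemma blockAt_treeOf_injective (s : Option 𝒜) (n : ℕ) :
    Function.Injective fun f : Live A e s n → Bool => blockAt (treeOf A e s n f) [] n := by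
  intro f g hfg
  funext w
  have h1 := congrFun hfg ⟨w.1, w.2.1⟩
  obtain ⟨j, hj⟩ := Option.isSome_iff_exists.1 w.2.2
  have hw : w.1.length < n ∧ (typeAt A e s w.1).isSome := w.2
  simp only [blockAt, List.nil_append, treeOf, dif_pos hw] at h1
  have key : ∀ (x : Option 𝒜) (F G : 𝒜 → 𝒜 × Bool), x.map F = x.map G → x = some j →
      F j = G j := by
    rintro x F G h rfl
    simpa using h
  have h2 := key _ _ _ h1 hj
  exact (Prod.mk.inj h2).2

lemma lower_card (i : 𝒜) (n : ℕ) :
    2 ^ Nat.card (Live A e (some i) n) ≤ (blocks (TreeShift (Forb A e)) n).ncard := by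
  have h1 : Set.range (fun f : Live A e (some i) n → Bool =>
      blockAt (treeOf A e (some i) n f) [] n) ⊆ blocks (TreeShift (Forb A e)) n := by
    rintro _ ⟨f, rfl⟩
    exact ⟨_, treeOf_mem A e _ n f, [], rfl⟩
  have h2 := Set.ncard_le_ncard h1 (Set.toFinite _)
  rw [← Set.image_univ, Set.ncard_image_of_injective _ (blockAt_treeOf_injective A e (some i) n),
    Set.ncard_univ, Nat.card_fun] at h2
  simpa using h2

lemma upper_card (n : ℕ) :
    (blocks (TreeShift (Forb A e)) n).ncard ≤ ∑ s : Option 𝒜, 2 ^ Nat.card (Live A e s n) := by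
  have h1 : blocks (TreeShift (Forb A e)) n ⊆ Set.range
      (fun p : (Σ s : Option 𝒜, (Live A e s n → Bool)) =>
        blockAt (treeOf A e p.1 n p.2) [] n) := by
    rintro _ ⟨t, ht, v, rfl⟩
    refine ⟨⟨ty (t v), fun w => ((t (v ++ w.1)).map Prod.snd).getD false⟩, ?_⟩
    funext w
    have h2 := type_of_mem A e ht w.1 v
    simp only [blockAt, List.nil_append, treeOf]
    rw [← h2]
    cases htv : t (v ++ w.1) with
    | none => simp [ty]
    | some q =>
      have h3 : w.1.length < n ∧ (typeAt A e (ty (t v)) w.1).isSome := by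
        refine ⟨w.2, ?_⟩
        rw [← h2, htv]
        rfl
      simp only [ty, Option.map_some]
      simp [w.2]
  have h2 := Set.ncard_le_ncard h1 (Set.toFinite _)
  refine h2.trans ?_
  rw [← Set.image_univ]
  refine (Set.ncard_image_le (Set.toFinite _)).trans ?_
  rw [Set.ncard_univ, Nat.card_sigma]
  refine Finset.sum_le_sum fun s _ => ?_
  rw [Nat.card_fun]
  simp

end Types

/-! ### The growth of the walks -/

section Growth

/-- elementary limit lemma -/
lemma limit_lemma (a : ℕ → ℝ) (ha : ∀ n, 1 ≤ a n) (L : ℝ)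
    (hL : Tendsto (fun n : ℕ => Real.log (a n) / n) atTop (𝓝 L)) (B : ℕ → ℝ) (C : ℝ)
    (hC : 1 ≤ C)
    (hB1 : ∀ n : ℕ, Real.log 2 * a n ≤ Real.log (B (n + 1)))
    (hB2 : ∀ n : ℕ, Real.log (B (n + 1)) ≤ C * ∑ k ∈ Finset.range (n + 1), a k) :
    Tendsto (fun n : ℕ => Real.log (Real.log (B n)) / n) atTop (𝓝 L) := by
  have hl2 : 0 < Real.log 2 := Real.log_pos (by norm_num)
  rw [← tendsto_add_atTop_iff_nat 1]
  have hL0 : 0 ≤ L := by
    refine ge_of_tendsto' hL fun n => ?_
    exact div_nonneg (Real.log_nonneg (ha n)) (Nat.cast_nonneg n)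
  have hfrac : Tendsto (fun n : ℕ => (n : ℝ) / ((n + 1 : ℕ) : ℝ)) atTop (𝓝 1) := by
    have := tendsto_natCast_div_add_atTop (1 : ℝ)
    simpa using this
  have hinv : Tendsto (fun n : ℕ => (1 : ℝ) / ((n + 1 : ℕ) : ℝ)) atTop (𝓝 0) := by
    have := tendsto_one_div_add_atTop_nhds_zero_nat (𝕜 := ℝ)
    simpa using this
  have hlogn : Tendsto (fun n : ℕ => Real.log ((n + 1 : ℕ) : ℝ) / ((n + 1 : ℕ) : ℝ)) atTop
      (𝓝 0) := by
    have h1 : Tendsto (fun x : ℝ => Real.log x / x) atTop (𝓝 0) := by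
      have := Real.isLittleO_log_id_atTop.tendsto_div_nhds_zero
      simpa using this
    have h2 : Tendsto (fun n : ℕ => ((n : ℕ) : ℝ)) atTop atTop := tendsto_natCast_atTop_atTop
    have h3 := (h1.comp h2)
    have h4 := (tendsto_add_atTop_iff_nat (f := fun n : ℕ => Real.log (n : ℝ) / (n : ℝ)) 1).2 h3
    exact h4
  rw [tendsto_order]
  constructor
  · intro l hl
    have hlow : Tendsto (fun n : ℕ => Real.log (Real.log 2) * (1 / ((n + 1 : ℕ) : ℝ))
        + (Real.log (a n) / n) * ((n : ℝ) / ((n + 1 : ℕ) : ℝ))) atTop (𝓝 L) := by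
      have := (hinv.const_mul (Real.log (Real.log 2))).add (hL.mul hfrac)
      simpa using this
    filter_upwards [hlow.eventually (lt_mem_nhds hl), eventually_ge_atTop 1] with n hn hn1
    refine lt_of_lt_of_le hn ?_
    have hn0 : (0 : ℝ) < n := by exact_mod_cast hn1
    have hn1' : (0 : ℝ) < ((n + 1 : ℕ) : ℝ) := by positivity
    have e1 : Real.log (Real.log 2) * (1 / ((n + 1 : ℕ) : ℝ))
        + (Real.log (a n) / n) * ((n : ℝ) / ((n + 1 : ℕ) : ℝ))
        = Real.log (Real.log 2 * a n) / ((n + 1 : ℕ) : ℝ) := by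
      rw [Real.log_mul hl2.ne' (by linarith [ha n])]
      field_simp
    rw [e1]
    have hpos : 0 < Real.log 2 * a n := mul_pos hl2 (by linarith [ha n])
    exact div_le_div_of_nonneg_right (Real.log_le_log hpos (hB1 n)) hn1'.le
  · intro u hu
    set c : ℝ := (L + u) / 2 with hc
    have hLc : L < c := by rw [hc]; linarith
    have hcu : c < u := by rw [hc]; linarith
    have hc0 : 0 < c := by linarith
    -- bound `a k ≤ K exp (c k)`
    obtain ⟨K, hK1, hK⟩ : ∃ K : ℝ, 1 ≤ K ∧ ∀ k : ℕ, a k ≤ K * Real.exp (c * k) := by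
      obtain ⟨N, hN⟩ := eventually_atTop.1 ((hL.eventually (gt_mem_nhds hLc)).and
        (eventually_ge_atTop 1))
      refine ⟨1 + ∑ k ∈ Finset.range N, a k, ?_, fun k => ?_⟩
      · have : 0 ≤ ∑ k ∈ Finset.range N, a k :=
          Finset.sum_nonneg fun k _ => by linarith [ha k]
        linarith
      · have hexp : 1 ≤ Real.exp (c * k) := Real.one_le_exp (by positivity)
        have hs : 0 ≤ ∑ k ∈ Finset.range N, a k :=
          Finset.sum_nonneg fun k _ => by linarith [ha k]
        by_cases hk : k < N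
        · have h1 : a k ≤ ∑ k ∈ Finset.range N, a k :=
            Finset.single_le_sum (f := a) (fun k _ => by linarith [ha k])
              (Finset.mem_range.2 hk)
          nlinarith
        · obtain ⟨h1, h2⟩ := hN k (not_lt.1 hk)
          have hk0 : (0 : ℝ) < k := by exact_mod_cast h2
          have h3 : Real.log (a k) < c * k := by
            rwa [div_lt_iff₀ hk0] at h1
          have h4 : a k < Real.exp (c * k) := by
            rwa [← Real.log_lt_iff_lt_exp (by linarith [ha k])]
          nlinarith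
    have hup : Tendsto (fun n : ℕ => (Real.log C + Real.log K) * (1 / ((n + 1 : ℕ) : ℝ))
        + Real.log ((n + 1 : ℕ) : ℝ) / ((n + 1 : ℕ) : ℝ) + c) atTop (𝓝 c) := by
      have := ((hinv.const_mul (Real.log C + Real.log K)).add hlogn).add_const c
      simpa using this
    filter_upwards [hup.eventually (gt_mem_nhds hcu)] with n hn
    refine lt_of_le_of_lt ?_ hn
    have hn1' : (0 : ℝ) < ((n + 1 : ℕ) : ℝ) := by positivity
    have hsum : ∑ k ∈ Finset.range (n + 1), a k
        ≤ ((n + 1 : ℕ) : ℝ) * (K * Real.exp (c * ((n + 1 : ℕ) : ℝ))) := by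
      calc ∑ k ∈ Finset.range (n + 1), a k
          ≤ ∑ k ∈ Finset.range (n + 1), K * Real.exp (c * ((n + 1 : ℕ) : ℝ)) := by
            refine Finset.sum_le_sum fun k hk => (hK k).trans ?_
            have hkn : (k : ℝ) ≤ ((n + 1 : ℕ) : ℝ) := by
              exact_mod_cast (Finset.mem_range.1 hk).le
            have : Real.exp (c * k) ≤ Real.exp (c * ((n + 1 : ℕ) : ℝ)) :=
              Real.exp_le_exp.2 (by nlinarith)
            nlinarith
        _ = ((n + 1 : ℕ) : ℝ) * (K * Real.exp (c * ((n + 1 : ℕ) : ℝ))) := by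
            rw [Finset.sum_const, Finset.card_range, nsmul_eq_mul]
    have hpos : 0 < Real.log (B (n + 1)) :=
      lt_of_lt_of_le (mul_pos hl2 (by linarith [ha n])) (hB1 n)
    have h5 : Real.log (B (n + 1))
        ≤ C * (((n + 1 : ℕ) : ℝ) * (K * Real.exp (c * ((n + 1 : ℕ) : ℝ)))) :=
      (hB2 n).trans (mul_le_mul_of_nonneg_left hsum (by linarith))
    have h6 := Real.log_le_log hpos h5
    have hC0 : C ≠ 0 := by linarith
    have hK0 : K ≠ 0 := by linarith
    rw [Real.log_mul hC0 (by positivity), Real.log_mul hn1'.ne' (by positivity),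
      Real.log_mul hK0 (Real.exp_pos _).ne', Real.log_exp] at h6
    rw [div_le_iff₀ hn1']
    have e2 : ((Real.log C + Real.log K) * (1 / ((n + 1 : ℕ) : ℝ))
        + Real.log ((n + 1 : ℕ) : ℝ) / ((n + 1 : ℕ) : ℝ) + c) * ((n + 1 : ℕ) : ℝ)
        = Real.log C + Real.log K + Real.log ((n + 1 : ℕ) : ℝ) + c * ((n + 1 : ℕ) : ℝ) := by
      field_simp
    rw [e2]
    linarith

end Growth

/-! ### The spectral radius -/

section Spectral

variable {𝒜 : Type} [Fintype 𝒜] [DecidableEq 𝒜] (A : Matrix 𝒜 𝒜 ℕ)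

/-- the number of walks of length `n` from `i` -/
def rs (n : ℕ) (i : 𝒜) : ℕ := ∑ j, (A ^ n) i j

/-- the largest number of walks of length `n` from one vertex -/
def mx (n : ℕ) : ℕ := Finset.univ.sup (rs A n)

attribute [local instance] Matrix.linftyOpNormedRing Matrix.linftyOpNormedAlgebra

lemma nnnorm_pow_eq (n : ℕ) :
    ‖(A.map (Nat.cast : ℕ → ℂ)) ^ n‖₊ = ((mx A n : ℕ) : NNReal) := by
  have h1 : (A.map (Nat.cast : ℕ → ℂ)) ^ n = (A ^ n).map (Nat.cast : ℕ → ℂ) := by
    have := map_pow (Nat.castRingHom ℂ).mapMatrix A n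
    exact this.symm
  rw [h1, Matrix.linfty_opNNNorm_def]
  unfold mx
  rw [Finset.comp_sup_eq_sup_comp_of_is_total (fun x : ℕ => (x : NNReal))
    (fun a b h => Nat.cast_le.2 h) (by simp)]
  congr 1
  funext i
  simp [rs]

lemma tendsto_log_mx (h1 : ∀ n, 1 ≤ mx A n) :
    Tendsto (fun n : ℕ => Real.log (mx A n : ℝ) / n) atTop
      (𝓝 (Real.log (spectralRadius ℂ (A.map (Nat.cast : ℕ → ℂ))).toReal)) := by
  set M := A.map (Nat.cast : ℕ → ℂ) with hM
  have hT := spectrum.pow_nnnorm_pow_one_div_tendsto_nhds_spectralRadius M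
  have hne : spectralRadius ℂ M ≠ ⊤ := by
    have := spectrum.spectralRadius_le_pow_nnnorm_pow_one_div ℂ M 0
    refine ne_top_of_le_ne_top (ENNReal.mul_ne_top ?_ ?_) this
    · exact ENNReal.rpow_ne_top_of_nonneg (by positivity) ENNReal.coe_ne_top
    · exact ENNReal.rpow_ne_top_of_nonneg (by positivity) ENNReal.coe_ne_top
  have hT2 := (ENNReal.tendsto_toReal hne).comp hT
  have hT3 : Tendsto (fun n : ℕ => (mx A n : ℝ) ^ (1 / n : ℝ)) atTop
      (𝓝 (spectralRadius ℂ M).toReal) := by
    refine hT2.congr fun n => ?_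
    simp only [Function.comp_apply]
    rw [hM, nnnorm_pow_eq, ← ENNReal.toReal_rpow]
    simp
  have hge : ∀ n : ℕ, 1 ≤ (mx A n : ℝ) ^ (1 / n : ℝ) := fun n =>
    Real.one_le_rpow (by exact_mod_cast h1 n) (by positivity)
  have hr : 1 ≤ (spectralRadius ℂ M).toReal := ge_of_tendsto' hT3 hge
  have hT4 := hT3.log (by linarith)
  refine hT4.congr fun n => ?_
  rw [Real.log_rpow (by have := h1 n; positivity)]
  ring

lemma walk_pos {x : ℤ → 𝒜} (hx : x ∈ matrixShift A) (n : ℕ) :
    ∀ i : ℤ, 1 ≤ (A ^ n) (x i) (x (i + n)) := by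
  induction n with
  | zero => intro i; simp
  | succ n ih =>
    intro i
    rw [pow_succ, Matrix.mul_apply]
    have h2 : A (x (i + n)) (x (i + ((n + 1 : ℕ) : ℤ))) = 1 := by
      have := hx (i + n)
      push_cast
      rwa [← add_assoc]
    calc 1 ≤ (A ^ n) (x i) (x (i + n)) * A (x (i + n)) (x (i + ((n + 1 : ℕ) : ℤ))) := by
          rw [h2, mul_one]; exact ih i
      _ ≤ _ := Finset.single_le_sum (f := fun l => (A ^ n) (x i) l * A l _)
          (fun _ _ => Nat.zero_le _) (Finset.mem_univ _)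

lemma one_le_mx (hne : (matrixShift A).Nonempty) (n : ℕ) : 1 ≤ mx A n := by
  obtain ⟨x, hx⟩ := hne
  have h1 := walk_pos A hx n 0
  have h2 : (A ^ n) (x 0) (x (0 + n)) ≤ rs A n (x 0) :=
    Finset.single_le_sum (f := fun l => (A ^ n) (x 0) l) (fun _ _ => Nat.zero_le _)
      (Finset.mem_univ _)
  exact h1.trans (h2.trans (Finset.le_sup (f := rs A n) (Finset.mem_univ _)))

end Spectral

/-! ### The realisation -/

section Realise

variable {𝒜 : Type} [Fintype 𝒜] [DecidableEq 𝒜] {d : ℕ} (A : Matrix 𝒜 𝒜 ℕ)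
  (e : Fin d ≃ Option 𝒜)

lemma blocks_lower (hA : ∀ i j, A i j = 0 ∨ A i j = 1) [Nonempty 𝒜] (n : ℕ) :
    2 ^ mx A n ≤ (blocks (TreeShift (Forb A e)) (n + 1)).ncard := by
  obtain ⟨i, -, hi⟩ := Finset.exists_mem_eq_sup (Finset.univ : Finset 𝒜)
    Finset.univ_nonempty (rs A n)
  refine le_trans ?_ (lower_card A e i (n + 1))
  refine Nat.pow_le_pow_right (by norm_num) ?_
  rw [card_live]
  calc mx A n = Nat.card (LiveEq A e (some i) n) := by
        rw [card_liveEq A e hA]; exact hi
    _ ≤ _ := Finset.single_le_sum (f := fun k => Nat.card (LiveEq A e (some i) k))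
        (fun _ _ => Nat.zero_le _) (Finset.mem_range.2 (Nat.lt_succ_self n))

lemma blocks_upper (hA : ∀ i j, A i j = 0 ∨ A i j = 1) (n : ℕ) :
    (blocks (TreeShift (Forb A e)) n).ncard
      ≤ (Fintype.card 𝒜 + 1) * 2 ^ (∑ k ∈ Finset.range n, mx A k) := by
  refine (upper_card A e n).trans ?_
  have h1 : ∀ s : Option 𝒜, 2 ^ Nat.card (Live A e s n) ≤ 2 ^ (∑ k ∈ Finset.range n, mx A k) := by
    intro s
    refine Nat.pow_le_pow_right (by norm_num) ?_
    rw [card_live]
    refine Finset.sum_le_sum fun k _ => ?_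
    cases s with
    | none => rw [card_liveEq_none]; exact Nat.zero_le _
    | some i =>
      rw [card_liveEq A e hA]
      exact Finset.le_sup (f := rs A k) (Finset.mem_univ i)
  refine (Finset.sum_le_sum fun s _ => h1 s).trans ?_
  rw [Finset.sum_const, smul_eq_mul, Finset.card_univ, Fintype.card_option]

lemma tree_entropy (hA : ∀ i j, A i j = 0 ∨ A i j = 1) (hne : (matrixShift A).Nonempty) :
    HasTreeEntropy (TreeShift (Forb A e))
      (Real.log (spectralRadius ℂ (A.map (Nat.cast : ℕ → ℂ))).toReal) := by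
  have : Nonempty 𝒜 := ⟨hne.some 0⟩
  have h1 := one_le_mx A hne
  have hlow : ∀ n, 2 ^ mx A n ≤ (blocks (TreeShift (Forb A e)) (n + 1)).ncard :=
    blocks_lower A e hA
  constructor
  · intro n hn
    obtain ⟨m, rfl⟩ : ∃ m, n = m + 1 := ⟨n - 1, by omega⟩
    refine le_trans ?_ (hlow m)
    calc 2 = 2 ^ 1 := by norm_num
      _ ≤ 2 ^ mx A m := Nat.pow_le_pow_right (by norm_num) (h1 m)
  · have hl2 : 0 < Real.log 2 := Real.log_pos (by norm_num)
    have hlc : 0 ≤ Real.log ((Fintype.card 𝒜 : ℝ) + 1) := Real.log_nonneg (by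
      have : (0 : ℝ) ≤ Fintype.card 𝒜 := Nat.cast_nonneg _
      linarith)
    refine limit_lemma (fun n => (mx A n : ℝ)) (fun n => by exact_mod_cast h1 n) _
      (tendsto_log_mx A h1) _ (1 + Real.log ((Fintype.card 𝒜 : ℝ) + 1) + Real.log 2) (by linarith)
      (fun n => ?_) (fun n => ?_)
    · have h3 : ((2 ^ mx A n : ℕ) : ℝ) ≤ ((blocks (TreeShift (Forb A e)) (n + 1)).ncard : ℝ) := by
        exact_mod_cast hlow n
      have h4 := Real.log_le_log (by positivity) h3
      push_cast at h4
      rw [Real.log_pow] at h4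
      linarith
    · have h3 : ((blocks (TreeShift (Forb A e)) (n + 1)).ncard : ℝ)
          ≤ ((((Fintype.card 𝒜 + 1) * 2 ^ (∑ k ∈ Finset.range (n + 1), mx A k) : ℕ)) : ℝ) := by
        exact_mod_cast blocks_upper A e hA (n + 1)
      have hpos : (0 : ℝ) < ((blocks (TreeShift (Forb A e)) (n + 1)).ncard : ℝ) := by
        have := hlow n
        have h5 : 0 < 2 ^ mx A n := by positivity
        exact_mod_cast lt_of_lt_of_le h5 this
      have h4 := Real.log_le_log hpos h3
      push_cast at h4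
      rw [Real.log_mul (by positivity) (by positivity), Real.log_pow] at h4
      push_cast at h4
      have hS : (1 : ℝ) ≤ ∑ k ∈ Finset.range (n + 1), (mx A k : ℝ) := by
        have h5 : (mx A 0 : ℝ) ≤ ∑ k ∈ Finset.range (n + 1), (mx A k : ℝ) :=
          Finset.single_le_sum (f := fun k => (mx A k : ℝ)) (fun _ _ => Nat.cast_nonneg _)
            (Finset.mem_range.2 (Nat.succ_pos n))
        have h6 : (1 : ℝ) ≤ mx A 0 := by exact_mod_cast h1 0
        linarith
      set S := ∑ k ∈ Finset.range (n + 1), (mx A k : ℝ) with hSdef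
      nlinarith

end Realise

/-- **MP_29bdbb_an, Q1.** Let `A` be a square `0`-`1` matrix indexed by a finite alphabet whose
matrix shift `X_A` is nonempty, and let `ρ` be the spectral radius of `A`. There are `d ≥ 2`, a finite
alphabet and a nonempty tree-shift of finite type `X` over them with entropy
`lim ln ln |B_n(X)| / n` equal to `ln ρ`. -/
theorem result (𝒜 : Type) [Fintype 𝒜] [DecidableEq 𝒜] (A : Matrix 𝒜 𝒜 ℕ)
    (hA : ∀ i j, A i j = 0 ∨ A i j = 1) (hne : (matrixShift A).Nonempty) :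
    ∃ (d : ℕ) (ℬ : Type) (_ : Fintype ℬ) (X : Set (List (Fin d) → ℬ)),
      2 ≤ d ∧ X.Nonempty ∧ IsTSFT X ∧
      HasTreeEntropy X (Real.log (spectralRadius ℂ (A.map (Nat.cast : ℕ → ℂ))).toReal) := by
  have x := hne.some 0
  have e : Fin (Fintype.card (Option 𝒜)) ≃ Option 𝒜 := (Fintype.equivFin (Option 𝒜)).symm
  refine ⟨Fintype.card (Option 𝒜), Option (𝒜 × Bool), inferInstance, TreeShift (Forb A e), ?_, ?_, ?_,
    tree_entropy A e hA hne⟩
  · rw [Fintype.card_option]
    have : 0 < Fintype.card 𝒜 := Fintype.card_pos_iff.2 ⟨x⟩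
    omega
  · exact ⟨_, treeOf_mem A e none 0 (fun _ => false)⟩
  · refine ⟨Forb A e, forb_finite A e, ?_, rfl⟩
    rintro b ⟨b', rfl, _⟩
    show 1 ≤ 2
    norm_num

end Pool.Agent.Results.MP_29bdbb_an.RealizeMatrixShiftEntropy
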